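import Pool.Agent.R592.Ba.Defs

/-!
# BAF-2: a system of nodes on all pairs of cylinders
-/

set_option autoImplicit false

open Cardinal Set Pool.Agent.R592.Ba

namespace Pool.Agent.R141.Ba

theorem cyl_clopen (s : List Bool) : IsClopen (cyl s) := by
  have h : cyl s = ⋂ i : Fin s.length, {x : X | x i = s[i]} := by
    ext x
    simp only [cyl, mem_iInter, Set.mem_ofPred_eq]
    exact ⟨fun h i => h i.1 i.2, fun h i hi => h ⟨i, hi⟩⟩
  rw [h]
  refine isClopen_iInter_of_finite fun i => ?_
  have h2 : {x : X | x i = s[i]} = (fun x : X => x i) ⁻¹' {s[i]} := by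
    ext x; simp
  rw [h2]
  exact (isClopen_discrete _).preimage (continuous_apply _)

theorem app_mem (s : List Bool) (x : X) : app s x ∈ cyl s := by
  intro i hi
  simp [app, hi]

/-- dropping the first digits -/
def drp (s : List Bool) (y : X) : X := fun i => y (i + s.length)

theorem drp_app (s : List Bool) (x : X) : drp s (app s x) = x := by
  funext i
  simp [drp, app]

theorem app_drp {s : List Bool} {y : X} (hy : y ∈ cyl s) : app s (drp s y) = y := by
  funext i
  unfold app drp
  split_ifs with h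
  · exact (hy i h).symm
  · congr 1
    omega

theorem app_cont (s : List Bool) : Continuous (app s) := by
  refine continuous_pi fun i => ?_
  unfold app
  split_ifs with h
  · exact continuous_const
  · exact continuous_apply _

theorem drp_cont (s : List Bool) : Continuous (drp s) :=
  continuous_pi fun i => continuous_apply _

/-- the piece of `A` in a cylinder is the image of a set -/
def hom (A : Set X) (s : List Bool) : {x | app s x ∈ A} ≃ₜ ↥(A ∩ cyl s) where
  toFun x := ⟨app s x.1, x.2, app_mem s x.1⟩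
  invFun y := ⟨drp s y.1, by
    show app s (drp s y.1) ∈ A
    rw [app_drp y.2.2]; exact y.2.1⟩
  left_inv x := Subtype.ext (drp_app s x.1)
  right_inv y := Subtype.ext (app_drp y.2.2)
  continuous_toFun := ((app_cont s).comp continuous_subtype_val).subtype_mk _
  continuous_invFun := ((drp_cont s).comp continuous_subtype_val).subtype_mk _

theorem kdense {κ : Cardinal.{0}} {A : Set X} (hA : KDense κ A) (s : List Bool) :
    KDense κ {x | app s x ∈ A} := by
  intro U hU hne
  have h1 : IsOpen (cyl s ∩ drp s ⁻¹' U) := (cyl_clopen s).isOpen.inter (hU.preimage (drp_cont s))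
  have h2 : (cyl s ∩ drp s ⁻¹' U).Nonempty := by
    obtain ⟨x, hx⟩ := hne
    refine ⟨app s x, app_mem s x, ?_⟩
    show drp s (app s x) ∈ U
    rw [drp_app]; exact hx
  rw [← hA _ h1 h2]
  refine Cardinal.mk_congr
    { toFun := fun x => ⟨app s x.1, x.2.1, app_mem s x.1, by
        show drp s (app s x.1) ∈ U
        rw [drp_app]; exact x.2.2⟩
      invFun := fun y => ⟨drp s y.1, by
        show app s (drp s y.1) ∈ A
        rw [app_drp y.2.2.1]; exact y.2.1, y.2.2.2⟩
      left_inv := fun x => Subtype.ext (drp_app s x.1)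
      right_inv := fun y => Subtype.ext (app_drp y.2.2.1) }

theorem homeo {κ : Cardinal.{0}} (hB : BAm κ X) {A B : Set X} (hA : KDense κ A)
    (hA' : KDense κ B) (s t : List Bool) : Nonempty (↥(A ∩ cyl s) ≃ₜ ↥(B ∩ cyl t)) := by
  obtain ⟨h⟩ := hB _ _ (kdense hA s) (kdense hA' t)
  exact ⟨((hom A s).symm.trans h).trans (hom B t)⟩

theorem dom {A : Set X} (hA : #A < bnum) (n : X → ℕ → ℕ) :
    ∃ g : ℕ → ℕ, ∀ x ∈ A, LeStar (n x) g := by
  by_contra hcon
  have h1 : bnum ≤ #(n '' A) := by
    refine csInf_le' ⟨n '' A, rfl, ?_⟩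
    rintro ⟨g, hg⟩
    exact hcon ⟨g, fun x hx => hg _ ⟨x, hx, rfl⟩⟩
  exact absurd (h1.trans mk_image_le) (not_le.2 hA)

theorem not_open (x : X) : ¬ IsOpen ({x} : Set X) := by
  intro h
  have h1 : Filter.Tendsto (fun n : ℕ => Function.update x n (!x n)) Filter.atTop (nhds x) := by
    rw [tendsto_pi_nhds]
    intro i
    refine tendsto_const_nhds.congr' ?_
    filter_upwards [Filter.eventually_gt_atTop i] with n hn
    rw [Function.update_of_ne (by omega)]
  have h2 := h1.eventually (h.mem_nhds rfl)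
  obtain ⟨n, hn⟩ := h2.exists
  have h3 : Function.update x n (!x n) = x := hn
  have h4 := congrFun h3 n
  rw [Function.update_self] at h4
  cases hx : x n <;> rw [hx] at h4 <;> simp at h4

theorem int_empty {C F : Set X} (hC : Dense C) (hF : ∀ x ∈ F, x ∉ C) (c0 : X) :
    interior (F ∪ {c0}) = ∅ := by
  by_contra hcon
  obtain ⟨x, hx⟩ := Set.nonempty_iff_ne_empty.2 hcon
  have hO : IsOpen (interior (F ∪ {c0})) := isOpen_interior
  by_cases h : (interior (F ∪ {c0}) ∩ {c0}ᶜ).Nonempty
  · obtain ⟨y, hy, hyC⟩ := hC.inter_open_nonempty _ (hO.inter isOpen_compl_singleton) h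
    rcases interior_subset hy.1 with h1 | h1
    · exact hF y h1 hyC
    · exact hy.2 h1
  · have h1 : interior (F ∪ {c0}) = {c0} := by
      apply subset_antisymm
      · intro y hy
        by_contra hy2
        exact h ⟨y, hy, hy2⟩
      · have h2 : x = c0 := by
          by_contra hy2
          exact h ⟨x, hx, hy2⟩
        have h3 := hx
        rw [h2] at h3
        rw [singleton_subset_iff]
        exact h3
    rw [h1] at hO
    exact not_open c0 hO

theorem capC (c : ℕ → X) (x : X) (hx : x ∈ range c) : ∃ N : ℕ, ∀ s : List Bool, N ≤ s.length →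
    x ∈ cyl s → ∀ h : ∃ i, c i ∈ cyl s, ∀ _ : DecidablePred fun i => c i ∈ cyl s,
      c (Nat.find h) = x := by
  classical
  have hx' : ∃ i, c i = x := hx
  set i0 := Nat.find hx' with hi0
  have h1 : ∀ j, j < i0 → ∃ m, c j m ≠ x m := by
    intro j hj
    by_contra hcon
    push Not at hcon
    exact Nat.find_min hx' hj (funext hcon)
  have h2 : ∀ k, k ≤ i0 → ∃ N : ℕ, ∀ j, j < k → ∃ m, m < N ∧ c j m ≠ x m := by
    intro k
    induction k with
    | zero => exact fun _ => ⟨0, fun j hj => absurd hj (Nat.not_lt_zero _)⟩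
    | succ k ih =>
      intro hk
      obtain ⟨N, hN⟩ := ih (by omega)
      obtain ⟨m, hm⟩ := h1 k (by omega)
      refine ⟨max N (m + 1), fun j hj => ?_⟩
      rcases Nat.lt_succ_iff_lt_or_eq.1 hj with h | rfl
      · obtain ⟨m', hm', h'⟩ := hN j h
        exact ⟨m', lt_max_of_lt_left hm', h'⟩
      · exact ⟨m, lt_max_of_lt_right (Nat.lt_succ_self m), hm⟩
  obtain ⟨N, hN⟩ := h2 i0 le_rfl
  refine ⟨N, fun s hs hxs h _ => ?_⟩
  have h3 : Nat.find h = i0 := by
    rw [Nat.find_eq_iff]
    refine ⟨?_, fun j hj hjs => ?_⟩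
    · rw [hi0, Nat.find_spec hx']
      exact hxs
    · obtain ⟨m, hm, hne⟩ := hN j hj
      exact hne ((hjs m (by omega)).trans (hxs m (by omega)).symm)
  rw [h3, hi0]
  exact Nat.find_spec hx'

theorem capA (e : ℕ ≃ List Bool × List Bool) (K : ℕ) : ∃ N : ℕ, ∀ s t : List Bool,
    N ≤ s.length → K ≤ e.symm (s, t) := by
  induction K with
  | zero => exact ⟨0, fun _ _ _ => Nat.zero_le _⟩
  | succ K ih =>
    obtain ⟨N, hN⟩ := ih
    refine ⟨max N ((e K).1.length + 1), fun s t hs => ?_⟩
    have h1 := hN s t (le_trans (le_max_left _ _) hs)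
    rcases Nat.lt_or_ge K (e.symm (s, t)) with h | h
    · exact h
    · have h2 : e.symm (s, t) = K := le_antisymm h h1
      have h3 : (s, t) = e K := by rw [← h2, Equiv.apply_symm_apply]
      have h4 : (e K).1 = s := by rw [← h3]
      rw [h4] at hs
      have := le_trans (le_max_right _ _) hs
      omega

theorem contOn {F : Set X} (hF : IsClosed F) {φ : X → X} (hφ : Continuous φ) {c0 : X}
    (hc : c0 ∉ F) (d0 : X) [DecidableEq X] : ContinuousOn (Function.update φ c0 d0) (F ∪ {c0}) := by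
  refine ContinuousOn.union_of_isClosed ?_ (continuousOn_singleton _ _) hF isClosed_singleton
  refine hφ.continuousOn.congr fun x hx => ?_
  rw [Function.update_of_ne]
  rintro rfl
  exact hc hx

theorem fillThm (hA : Approx) : FillThm := by
  classical
  intro κ hκ hBA A B C D kA kB cC cD dC dD dAC dBD
  have hCne : C.Nonempty := dC.nonempty
  have hDne : D.Nonempty := dD.nonempty
  obtain ⟨c, rfl⟩ := cC.exists_eq_range hCne
  obtain ⟨d, rfl⟩ := cD.exists_eq_range hDne
  have hcA : ∀ i, c i ∉ A := fun i h => Set.disjoint_left.1 dAC h ⟨i, rfl⟩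
  have hdB : ∀ i, d i ∉ B := fun i h => Set.disjoint_left.1 dBD h ⟨i, rfl⟩
  have neC : ∀ s : List Bool, (cyl s).Nonempty := fun s => ⟨app s (fun _ => false), app_mem _ _⟩
  have cardP : ∀ s, #(↥(A ∩ cyl s)) < bnum := fun s => by
    rw [kA _ (cyl_clopen s).isOpen (neC s)]; exact hκ
  have hap : ∀ s t : List Bool, ∃ (F G : ℕ → Set X) (φ ψ : ℕ → X → X),
      (∀ n, IsClosed (F n)) ∧ (∀ n, IsClosed (G n)) ∧
      (∀ n, F n ⊆ closure (A ∩ cyl s)) ∧ (∀ n, G n ⊆ closure (B ∩ cyl t)) ∧
      (∀ n i, c i ∉ F n) ∧ (∀ n i, d i ∉ G n) ∧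
      (∀ n, Continuous (φ n)) ∧ (∀ n, Continuous (ψ n)) ∧
      (∀ n, ∀ x ∈ F n, φ n x ∈ G n) ∧ (∀ n, ∀ y ∈ G n, ψ n y ∈ F n) ∧
      (∀ n, ∀ x ∈ F n, ψ n (φ n x) = x) ∧ (∀ n, ∀ y ∈ G n, φ n (ψ n y) = y) ∧
      (∀ n, ∀ x ∈ F n, (x ∈ A ∩ cyl s ↔ φ n x ∈ B ∩ cyl t)) ∧
      (∀ x ∈ A ∩ cyl s, ∃ N, ∀ n ≥ N, x ∈ F n) ∧ (∀ y ∈ B ∩ cyl t, ∃ N, ∀ n ≥ N, y ∈ G n) := by
    intro s t
    obtain ⟨h⟩ := homeo hBA kA kB s t
    exact hA _ _ h (cardP s) c d (fun i hi => hcA i hi.1) (fun i hi => hdB i hi.1)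
  choose F G φ ψ cF cG FP GR cF' cG' kφ kψ mφ mψ lφ lψ pr capP capR using hap
  have FU : ∀ s t n, F s t n ⊆ cyl s := fun s t n =>
    (FP s t n).trans (closure_minimal inter_subset_right (cyl_clopen s).isClosed)
  have GV : ∀ s t n, G s t n ⊆ cyl t := fun s t n =>
    (GR s t n).trans (closure_minimal inter_subset_right (cyl_clopen t).isClosed)
  obtain ⟨e⟩ : Nonempty (ℕ ≃ List Bool × List Bool) := nonempty_equiv_of_countable
  have hA0 : #A < bnum := by
    have h := kA univ isOpen_univ ⟨fun _ => false, trivial⟩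
    rw [inter_univ] at h
    rw [h]; exact hκ
  have hB0 : #B < bnum := by
    have h := kB univ isOpen_univ ⟨fun _ => false, trivial⟩
    rw [inter_univ] at h
    rw [h]; exact hκ
  obtain ⟨gA, hgA⟩ := dom hA0 (fun x k => if h : x ∈ A ∩ cyl (e k).1 then
    (capP (e k).1 (e k).2 x h).choose else 0)
  obtain ⟨gB, hgB⟩ := dom hB0 (fun x k => if h : x ∈ B ∩ cyl (e k).2 then
    (capR (e k).1 (e k).2 x h).choose else 0)
  set g : ℕ → ℕ := fun k => max (gA k) (gB k) with hg
  have hc0 : ∀ s : List Bool, ∃ i, c i ∈ cyl s := by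
    intro s
    obtain ⟨y, hy, ⟨i, rfl⟩⟩ := dC.inter_open_nonempty _ (cyl_clopen s).isOpen (neC s)
    exact ⟨i, hy⟩
  have hd0 : ∀ s : List Bool, ∃ i, d i ∈ cyl s := by
    intro s
    obtain ⟨y, hy, ⟨i, rfl⟩⟩ := dD.inter_open_nonempty _ (cyl_clopen s).isOpen (neC s)
    exact ⟨i, hy⟩
  have updF : ∀ s t n x i j, x ∈ F s t n →
      Function.update (φ s t n) (c i) (d j) x = φ s t n x := by
    intro s t n x i j hx
    rw [Function.update_of_ne]
    rintro rfl
    exact cF' s t n i hx
  have updG : ∀ s t n y i j, y ∈ G s t n →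
      Function.update (ψ s t n) (d j) (c i) y = ψ s t n y := by
    intro s t n y i j hy
    rw [Function.update_of_ne]
    rintro rfl
    exact cG' s t n j hy
  refine ⟨fun s t =>
    { U := cyl s
      V := cyl t
      F := F s t (g (e.symm (s, t))) ∪ {c (Nat.find (hc0 s))}
      G := G s t (g (e.symm (s, t))) ∪ {d (Nat.find (hd0 t))}
      φ := Function.update (φ s t (g (e.symm (s, t)))) (c (Nat.find (hc0 s)))
        (d (Nat.find (hd0 t)))
      ψ := Function.update (ψ s t (g (e.symm (s, t)))) (d (Nat.find (hd0 t)))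
        (c (Nat.find (hc0 s)))
      oU := cyl_clopen s
      oV := cyl_clopen t
      neU := neC s
      neV := neC t
      cF := (cF s t _).union isClosed_singleton
      cG := (cG s t _).union isClosed_singleton
      FU := union_subset (FU s t _) (singleton_subset_iff.2 (Nat.find_spec (hc0 s)))
      GV := union_subset (GV s t _) (singleton_subset_iff.2 (Nat.find_spec (hd0 t)))
      nF := int_empty dC (by rintro x hx ⟨i, rfl⟩; exact cF' s t _ i hx) _
      nG := int_empty dD (by rintro x hx ⟨i, rfl⟩; exact cG' s t _ i hx) _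
      kφ := contOn (cF s t _) (kφ s t _) (cF' s t _ _) _
      kψ := contOn (cG s t _) (kψ s t _) (cG' s t _ _) _
      mφ := ?_
      mψ := ?_
      lφ := ?_
      lψ := ?_
      aB := ?_
      cD := ?_ }, fun _ _ => rfl, fun _ _ => rfl, ?_, ?_⟩
  · rintro x (hx | hx)
    · rw [updF s t _ x _ _ hx]
      exact Or.inl (mφ s t _ x hx)
    · rw [mem_singleton_iff] at hx
      subst hx
      rw [Function.update_self]
      exact Or.inr rfl
  · rintro y (hy | hy)
    · rw [updG s t _ y _ _ hy]
      exact Or.inl (mψ s t _ y hy)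
    · rw [mem_singleton_iff] at hy
      subst hy
      rw [Function.update_self]
      exact Or.inr rfl
  · rintro x (hx | hx)
    · rw [updF s t _ x _ _ hx, updG s t _ _ _ _ (mφ s t _ x hx)]
      exact lφ s t _ x hx
    · rw [mem_singleton_iff] at hx
      subst hx
      rw [Function.update_self, Function.update_self]
  · rintro y (hy | hy)
    · rw [updG s t _ y _ _ hy, updF s t _ _ _ _ (mψ s t _ y hy)]
      exact lψ s t _ y hy
    · rw [mem_singleton_iff] at hy
      subst hy
      rw [Function.update_self, Function.update_self]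
  · rintro x (hx | hx)
    · rw [updF s t _ x _ _ hx]
      have h := pr s t _ x hx
      have h1 := FU s t _ hx
      have h2 := GV s t _ (mφ s t _ x hx)
      exact ⟨fun h3 => (h.1 ⟨h3, h1⟩).1, fun h3 => (h.2 ⟨h3, h2⟩).1⟩
    · rw [mem_singleton_iff] at hx
      subst hx
      rw [Function.update_self]
      exact ⟨fun h => absurd h (hcA _), fun h => absurd h (hdB _)⟩
  · rintro x (hx | hx)
    · rw [updF s t _ x _ _ hx]
      constructor
      · rintro ⟨i, rfl⟩
        exact absurd hx (cF' s t _ i)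
      · rintro ⟨i, hi⟩
        have := mφ s t _ x hx
        rw [← hi] at this
        exact absurd this (cG' s t _ i)
    · rw [mem_singleton_iff] at hx
      subst hx
      rw [Function.update_self]
      exact ⟨fun _ => ⟨_, rfl⟩, fun _ => ⟨_, rfl⟩⟩
  · rintro x (hx | hx)
    · have h1 := hgA x hx
      unfold LeStar at h1
      rw [Filter.eventually_atTop] at h1
      obtain ⟨K, hK⟩ := h1
      obtain ⟨N, hN⟩ := capA e K
      refine ⟨N, fun s t hs _ hxs => Or.inl ?_⟩
      have h2 := hK _ (hN s t hs)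
      simp only [Equiv.apply_symm_apply] at h2
      rw [dif_pos ⟨hx, hxs⟩] at h2
      exact (capP s t x ⟨hx, hxs⟩).choose_spec _ (h2.trans (le_max_left _ _))
    · obtain ⟨N, hN⟩ := capC c x hx
      exact ⟨N, fun s t hs _ hxs => Or.inr (hN s hs hxs (hc0 s) _).symm⟩
  · rintro x (hx | hx)
    · have h1 := hgB x hx
      unfold LeStar at h1
      rw [Filter.eventually_atTop] at h1
      obtain ⟨K, hK⟩ := h1
      obtain ⟨N, hN⟩ := capA e K
      refine ⟨N, fun s t hs _ hxs => Or.inl ?_⟩
      have h2 := hK _ (hN s t hs)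
      simp only [Equiv.apply_symm_apply] at h2
      rw [dif_pos ⟨hx, hxs⟩] at h2
      exact (capR s t x ⟨hx, hxs⟩).choose_spec _ (h2.trans (le_max_right _ _))
    · obtain ⟨N, hN⟩ := capC d x hx
      exact ⟨N, fun s t _ ht hxs => Or.inr (hN t ht hxs (hd0 t) _).symm⟩

end Pool.Agent.R141.Ba
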